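import Mathlib

set_option autoImplicit false

/-!
Products of a `p`-subgroup `A` and a `q`-subgroup `B`: factorized subgroups.
-/

namespace Pool.Agent.H660P

universe u

variable {G : Type u} [Group G]

/-- The subgroup `M` is factorized: `M = (A ∩ M)(B ∩ M)`. -/
def Factors (A B M : Subgroup G) : Prop :=
  ∀ g ∈ M, ∃ a ∈ A ⊓ M, ∃ b ∈ B ⊓ M, g = a * b

/-- All finitely generated subgroups are finite. -/
def LocFin (G : Type u) [Group G] : Prop :=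
  ∀ s : Finset G, ((Subgroup.closure (s : Set G) : Subgroup G) : Set G).Finite

/-- an element of `p`-power order and of `q`-power order is `1`, relative version -/
lemma mem_of_pow {N : Subgroup G} {p q : ℕ} (hp : p.Prime) (hq : q.Prime) (hpq : p ≠ q)
    {a : G} {k l : ℕ} (h1 : a ^ p ^ k ∈ N) (h2 : a ^ q ^ l ∈ N) : a ∈ N := by
  have hc : Nat.gcd (p ^ k) (q ^ l) = 1 :=
    Nat.Coprime.pow k l ((Nat.coprime_primes hp hq).2 hpq)
  have h3 := Nat.gcd_eq_gcd_ab (p ^ k) (q ^ l)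
  rw [hc] at h3
  have h4 : a = (a ^ p ^ k) ^ (Nat.gcdA (p ^ k) (q ^ l)) * (a ^ q ^ l) ^ (Nat.gcdB (p ^ k) (q ^ l)) := by
    rw [← zpow_natCast a (p ^ k), ← zpow_natCast a (q ^ l), ← zpow_mul, ← zpow_mul, ← zpow_add,
      ← h3]
    simp
  rw [h4]
  exact N.mul_mem (N.zpow_mem h1 _) (N.zpow_mem h2 _)

lemma disj {p q : ℕ} (hp : p.Prime) (hq : q.Prime) (hpq : p ≠ q) {A B : Subgroup G}
    (hA : IsPGroup p A) (hB : IsPGroup q B) {x : G} (h1 : x ∈ A) (h2 : x ∈ B) : x = 1 := by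
  obtain ⟨k, hk⟩ := hA ⟨x, h1⟩
  obtain ⟨l, hl⟩ := hB ⟨x, h2⟩
  have hk' : x ^ p ^ k = 1 := by simpa using congrArg Subtype.val hk
  have hl' : x ^ q ^ l = 1 := by simpa using congrArg Subtype.val hl
  have := mem_of_pow (N := (⊥ : Subgroup G)) hp hq hpq (a := x) (k := k) (l := l)
    (by simp [hk']) (by simp [hl'])
  simpa using this

lemma uniq {p q : ℕ} (hp : p.Prime) (hq : q.Prime) (hpq : p ≠ q) {A B : Subgroup G}
    (hA : IsPGroup p A) (hB : IsPGroup q B) {a a' b b' : G} (ha : a ∈ A) (ha' : a' ∈ A)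
    (hb : b ∈ B) (hb' : b' ∈ B) (h : a * b = a' * b') : a = a' ∧ b = b' := by
  have h1 : a'⁻¹ * a = b' * b⁻¹ := by
    rw [eq_mul_inv_iff_mul_eq, mul_assoc, h]
    group
  have h2 : a'⁻¹ * a = 1 := disj hp hq hpq hA hB (A.mul_mem (A.inv_mem ha') ha)
    (h1 ▸ B.mul_mem hb' (B.inv_mem hb))
  have h3 : a = a' := by
    rw [inv_mul_eq_one] at h2
    exact h2.symm
  subst h3
  exact ⟨rfl, mul_left_cancel h⟩

/-- A subgroup of a factorized subgroup `M` which is normalized by `M` is factorized. -/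
lemma factors_of_normal {p q : ℕ} (hp : p.Prime) (hq : q.Prime) (hpq : p ≠ q)
    {A B : Subgroup G} (hA : IsPGroup p A) (hB : IsPGroup q B) {M N : Subgroup G}
    (hM : Factors A B M) (hNM : N ≤ M) (hn : ∀ m ∈ M, ∀ n ∈ N, m * n * m⁻¹ ∈ N) :
    Factors A B N := by
  intro n hnN
  obtain ⟨a, ⟨haA, haM⟩, b, ⟨hbB, hbM⟩, hab⟩ := hM n (hNM hnN)
  obtain ⟨k, hk⟩ := hA ⟨a, haA⟩
  obtain ⟨l, hl⟩ := hB ⟨b, hbB⟩
  have hk' : a ^ p ^ k = 1 := by simpa using congrArg Subtype.val hk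
  have hl' : b ^ q ^ l = 1 := by simpa using congrArg Subtype.val hl
  -- `a = n b⁻¹`; powers
  have key : ∀ j : ℕ, ∃ m ∈ N, a ^ j = m * (b⁻¹) ^ j := by
    intro j
    induction j with
    | zero => exact ⟨1, N.one_mem, by simp⟩
    | succ j ih =>
      obtain ⟨m, hm, hj⟩ := ih
      have hbj : (b⁻¹) ^ j ∈ M := M.pow_mem (M.inv_mem hbM) _
      refine ⟨m * ((b⁻¹) ^ j * n * ((b⁻¹) ^ j)⁻¹), N.mul_mem hm (hn _ hbj _ hnN), ?_⟩
      have ha : a = n * b⁻¹ := by rw [hab]; group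
      rw [pow_succ a, hj, pow_succ (b⁻¹)]
      nth_rewrite 1 [ha]
      group
  have h2 : a ^ q ^ l ∈ N := by
    obtain ⟨m, hm, hj⟩ := key (q ^ l)
    rw [hj, inv_pow, hl', inv_one, mul_one]
    exact hm
  have haN : a ∈ N := mem_of_pow hp hq hpq (k := k) (l := l) (by rw [hk']; exact N.one_mem) h2
  have hbN : b ∈ N := by
    have : b = a⁻¹ * n := by rw [hab]; group
    rw [this]
    exact N.mul_mem (N.inv_mem haN) hnN
  exact ⟨a, ⟨haA, haN⟩, b, ⟨hbB, hbN⟩, hab⟩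

/-- Intersections of nonempty families of factorized subgroups are factorized. -/
lemma factors_sInf {p q : ℕ} (hp : p.Prime) (hq : q.Prime) (hpq : p ≠ q)
    {A B : Subgroup G} (hA : IsPGroup p A) (hB : IsPGroup q B) (c : Set (Subgroup G))
    (hne : c.Nonempty) (hc : ∀ M ∈ c, Factors A B M) : Factors A B (sInf c) := by
  intro g hg
  obtain ⟨M0, hM0⟩ := hne
  have hg' : ∀ M ∈ c, g ∈ M := fun M hM => Subgroup.mem_sInf.1 hg M hM
  obtain ⟨a, ⟨haA, haM⟩, b, ⟨hbB, hbM⟩, hab⟩ := hc M0 hM0 g (hg' M0 hM0)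
  have hall : ∀ M ∈ c, a ∈ M ∧ b ∈ M := by
    intro M hM
    obtain ⟨a', ⟨haA', haM'⟩, b', ⟨hbB', hbM'⟩, hab'⟩ := hc M hM g (hg' M hM)
    obtain ⟨h1, h2⟩ := uniq hp hq hpq hA hB haA haA' hbB hbB' (hab ▸ hab')
    rw [h1, h2]
    exact ⟨haM', hbM'⟩
  exact ⟨a, ⟨haA, Subgroup.mem_sInf.2 fun M hM => (hall M hM).1⟩, b,
    ⟨hbB, Subgroup.mem_sInf.2 fun M hM => (hall M hM).2⟩, hab⟩

/-- A smallest factorized subgroup containing `x`. -/
lemma exists_smallest {p q : ℕ} (hp : p.Prime) (hq : q.Prime) (hpq : p ≠ q)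
    {A B : Subgroup G} (hA : IsPGroup p A) (hB : IsPGroup q B)
    (hAB : Factors A B ⊤) (x : G) :
    ∃ M : Subgroup G, x ∈ M ∧ Factors A B M ∧
      ∀ K : Subgroup G, x ∈ K → Factors A B K → M ≤ K := by
  refine ⟨sInf {K | x ∈ K ∧ Factors A B K}, Subgroup.mem_sInf.2 fun K hK => hK.1,
    factors_sInf hp hq hpq hA hB _ ⟨⊤, Subgroup.mem_top _, hAB⟩ (fun K hK => hK.2), ?_⟩
  intro K h1 h2
  exact sInf_le ⟨h1, h2⟩

end Pool.Agent.H660P
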