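import Mathlib
import Pool.Agent.H660P.Basic

set_option autoImplicit false

/-!
Locally finite and locally solvable groups: subgroups, quotients; simple locally solvable groups are
commutative; finite products of a `p`-group and a `q`-group.
-/

open scoped commutatorElement

namespace Pool.Agent.H660P

universe u v

/-- All finitely generated subgroups are solvable. -/
def LocSolv (G : Type u) [Group G] : Prop :=
  ∀ s : Finset G, Group.IsSolvable (Subgroup.closure (s : Set G) : Subgroup G)

section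
variable {G : Type u} [Group G] {H : Type v} [Group H]

lemma LocFin.of_injective (h : LocFin G) (f : H →* G) (hf : Function.Injective f) :
    LocFin H := by
  classical
  intro s
  have h1 := h (s.image f)
  have h2 : f '' ((Subgroup.closure (s : Set H) : Subgroup H) : Set H) =
      ((Subgroup.closure ((s.image f : Finset G) : Set G) : Subgroup G) : Set G) := by
    rw [Finset.coe_image, ← MonoidHom.map_closure, Subgroup.coe_map]
  rw [← h2] at h1
  exact h1.of_finite_image hf.injOn

lemma exists_lift (f : G →* H) (hf : Function.Surjective f) (s : Finset H) :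
    ∃ t : Finset G, f '' (t : Set G) = (s : Set H) := by
  classical
  refine ⟨s.image (Function.surjInv hf), ?_⟩
  rw [Finset.coe_image, ← Set.image_comp]
  have : (f ∘ Function.surjInv hf) = id := by
    ext x
    exact Function.surjInv_eq hf x
  rw [this, Set.image_id]

lemma LocFin.of_surjective (h : LocFin G) (f : G →* H) (hf : Function.Surjective f) :
    LocFin H := by
  intro s
  obtain ⟨t, ht⟩ := exists_lift f hf s
  have h1 := (h t).image f
  have h2 : f '' ((Subgroup.closure (t : Set G) : Subgroup G) : Set G) =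
      ((Subgroup.closure (s : Set H) : Subgroup H) : Set H) := by
    rw [← ht, ← MonoidHom.map_closure, Subgroup.coe_map]
  rwa [h2] at h1

lemma LocSolv.of_injective (h : LocSolv G) (f : H →* G) (hf : Function.Injective f) :
    LocSolv H := by
  classical
  intro s
  have h1 := h (s.image f)
  have h2 : Subgroup.map f (Subgroup.closure (s : Set H)) =
      Subgroup.closure ((s.image f : Finset G) : Set G) := by
    rw [Finset.coe_image, ← MonoidHom.map_closure]
  rw [← h2] at h1
  have h3 : Group.IsSolvable (Subgroup.map f (Subgroup.closure (s : Set H))) := h1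
  have e := Subgroup.equivMapOfInjective (Subgroup.closure (s : Set H)) f hf
  exact Group.isSolvable_of_isSolvable_injective (f := e.toMonoidHom) e.injective

lemma LocSolv.of_surjective (h : LocSolv G) (f : G →* H) (hf : Function.Surjective f) :
    LocSolv H := by
  intro s
  obtain ⟨t, ht⟩ := exists_lift f hf s
  have h1 : Group.IsSolvable (Subgroup.closure (t : Set G) : Subgroup G) := h t
  have h2 : Subgroup.map f (Subgroup.closure (t : Set G)) = Subgroup.closure (s : Set H) := by
    rw [← ht, ← MonoidHom.map_closure]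
  rw [← h2]
  exact Group.isSolvable_of_surjective
    (f := f.subgroupMap (Subgroup.closure (t : Set G)))
    (f.subgroupMap_surjective (Subgroup.closure (t : Set G)))

/-- finite support of an element of a normal closure -/
lemma normalClosure_support (c : G) (y : G) (hy : y ∈ Subgroup.normalClosure ({c} : Set G)) :
    ∃ T : Finset G, ∀ H L : Subgroup G, (∀ t ∈ T, t ∈ H) → c ∈ L →
      (∀ h ∈ H, ∀ l ∈ L, h * l * h⁻¹ ∈ L) → y ∈ L := by
  classical
  rw [Subgroup.normalClosure] at hy
  induction hy using Subgroup.closure_induction with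
  | mem x hx =>
    obtain ⟨c', hc', hx'⟩ := Group.mem_conjugatesOfSet_iff.1 hx
    rw [Set.mem_singleton_iff] at hc'
    subst hc'
    obtain ⟨t, ht⟩ := isConj_iff.1 hx'
    refine ⟨{t}, fun H L h1 h2 h3 => ?_⟩
    rw [← ht]
    exact h3 t (h1 t (Finset.mem_singleton_self t)) c' h2
  | one => exact ⟨∅, fun H L _ _ _ => L.one_mem⟩
  | mul a b _ _ iha ihb =>
    obtain ⟨T1, h1⟩ := iha
    obtain ⟨T2, h2⟩ := ihb
    refine ⟨T1 ∪ T2, fun H L h3 h4 h5 => L.mul_mem ?_ ?_⟩
    · exact h1 H L (fun t ht => h3 t (Finset.mem_union_left _ ht)) h4 h5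
    · exact h2 H L (fun t ht => h3 t (Finset.mem_union_right _ ht)) h4 h5
  | inv a _ iha =>
    obtain ⟨T1, h1⟩ := iha
    exact ⟨T1, fun H L h3 h4 h5 => L.inv_mem (h1 H L h3 h4 h5)⟩

/-- A simple locally solvable group is commutative. -/
lemma comm_of_simple_locSolv [IsSimpleGroup G] (h : LocSolv G) (a b : G) : a * b = b * a := by
  classical
  by_contra hab
  have hc : ⁅a, b⁆ ≠ 1 := fun h0 => hab (commutatorElement_eq_one_iff_mul_comm.1 h0)
  have htop : Subgroup.normalClosure ({⁅a, b⁆} : Set G) = ⊤ := by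
    rcases (Subgroup.normalClosure_normal (s := ({⁅a, b⁆} : Set G))).eq_bot_or_eq_top with h0 | h0
    · exfalso
      apply hc
      have : ⁅a, b⁆ ∈ Subgroup.normalClosure ({⁅a, b⁆} : Set G) :=
        Subgroup.subset_normalClosure (Set.mem_singleton _)
      rw [h0] at this
      simpa using this
    · exact h0
  obtain ⟨T1, h1⟩ := normalClosure_support ⁅a, b⁆ a (by rw [htop]; exact Subgroup.mem_top _)
  obtain ⟨T2, h2⟩ := normalClosure_support ⁅a, b⁆ b (by rw [htop]; exact Subgroup.mem_top _)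
  set T : Finset G := {a, b} ∪ (T1 ∪ T2) with hT
  set K : Subgroup G := Subgroup.closure (T : Set G) with hK
  have hsolv : Group.IsSolvable K := h T
  have hTK : ∀ t ∈ T, t ∈ K := fun t ht => Subgroup.subset_closure (by exact_mod_cast ht)
  have haK : a ∈ K := hTK a (by simp [hT])
  have hbK : b ∈ K := hTK b (by simp [hT])
  have key : ∀ n : ℕ, (⟨a, haK⟩ : K) ∈ derivedSeries K n ∧ (⟨b, hbK⟩ : K) ∈ derivedSeries K n := by
    intro n
    induction n with
    | zero => simp
    | succ n ih =>
      set L : Subgroup G := (derivedSeries K (n + 1)).map K.subtype with hL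
      have hcL : ⁅a, b⁆ ∈ L := by
        refine ⟨⁅(⟨a, haK⟩ : K), (⟨b, hbK⟩ : K)⁆, ?_, ?_⟩
        · rw [derivedSeries_succ]
          exact Subgroup.commutator_mem_commutator ih.1 ih.2
        · rfl
      have hconj : ∀ g ∈ K, ∀ l ∈ L, g * l * g⁻¹ ∈ L := by
        rintro g hg l ⟨l', hl', rfl⟩
        refine ⟨⟨g, hg⟩ * l' * ⟨g, hg⟩⁻¹, ?_, rfl⟩
        exact (derivedSeries_normal K (n + 1)).conj_mem l' hl' ⟨g, hg⟩
      have ha := h1 K L (fun t ht => hTK t (by simp [hT, ht])) hcL hconj
      have hb := h2 K L (fun t ht => hTK t (by simp [hT, ht])) hcL hconj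
      constructor
      · obtain ⟨a', ha', he⟩ := ha
        have : a' = ⟨a, haK⟩ := Subtype.ext he
        rwa [← this]
      · obtain ⟨b', hb', he⟩ := hb
        have : b' = ⟨b, hbK⟩ := Subtype.ext he
        rwa [← this]
  obtain ⟨n, hn⟩ := hsolv.solvable
  have ha1 := (key n).1
  rw [hn, Subgroup.mem_bot] at ha1
  have ha2 : a = 1 := congrArg Subtype.val ha1
  exact hab (by rw [ha2]; simp)

end

section
variable {S : Type u} [Group S]

/-- A finite product of a `p`-group and a `q`-group has order `p ^ m * q ^ n`. -/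
lemma card_of_finite {p q : ℕ} (hp : p.Prime) (hq : q.Prime) (hpq : p ≠ q) [Finite S]
    {A B : Subgroup S} (hA : IsPGroup p A) (hB : IsPGroup q B)
    (hAB : ∀ g : S, ∃ a ∈ A, ∃ b ∈ B, g = a * b) : ∃ m n : ℕ, Nat.card S = p ^ m * q ^ n := by
  have : Fact p.Prime := ⟨hp⟩
  have : Fact q.Prime := ⟨hq⟩
  obtain ⟨m, hm⟩ := IsPGroup.iff_card.1 hA
  obtain ⟨n, hn⟩ := IsPGroup.iff_card.1 hB
  refine ⟨m, n, ?_⟩
  rw [← hm, ← hn, ← Nat.card_prod]
  symm
  refine Nat.card_eq_of_bijective (fun z : A × B => (z.1 : S) * (z.2 : S)) ⟨?_, ?_⟩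
  · rintro ⟨⟨a, ha⟩, ⟨b, hb⟩⟩ ⟨⟨a', ha'⟩, ⟨b', hb'⟩⟩ h
    obtain ⟨h1, h2⟩ := uniq hp hq hpq hA hB ha ha' hb hb' h
    subst h1; subst h2; rfl
  · intro g
    obtain ⟨a, ha, b, hb, rfl⟩ := hAB g
    exact ⟨(⟨a, ha⟩, ⟨b, hb⟩), rfl⟩

lemma not_finite_of_order {p q : ℕ} (hp : p.Prime) (hq : q.Prime) (hpq : p ≠ q)
    {A B : Subgroup S} (hA : IsPGroup p A) (hB : IsPGroup q B)
    (hAB : ∀ g : S, ∃ a ∈ A, ∃ b ∈ B, g = a * b) {r : ℕ} (hr : r.Prime) (hrp : r ≠ p)
    (hrq : r ≠ q) {x : S} (hx : orderOf x = r) : ¬ Finite S := by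
  intro hfin
  obtain ⟨m, n, h⟩ := card_of_finite hp hq hpq hA hB hAB
  have h1 : r ∣ p ^ m * q ^ n := by
    rw [← h, ← hx]
    exact orderOf_dvd_natCard x
  rcases (Nat.Prime.dvd_mul hr).1 h1 with h2 | h2
  · exact hrp ((Nat.prime_dvd_prime_iff_eq hr hp).1 (hr.dvd_of_dvd_pow h2))
  · exact hrq ((Nat.prime_dvd_prime_iff_eq hr hq).1 (hr.dvd_of_dvd_pow h2))

lemma nat_form {p q : ℕ} (n : ℕ) (hn : n ≠ 0)
    (h : ∀ r : ℕ, r.Prime → r ∣ n → r = p ∨ r = q) : ∃ m k : ℕ, n = p ^ m * q ^ k := by
  induction n using Nat.strong_induction_on with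
  | _ n ih =>
    by_cases h1 : n = 1
    · exact ⟨0, 0, by simp [h1]⟩
    · obtain ⟨n', hn'⟩ := Nat.minFac_dvd n
      have hpr := Nat.minFac_prime h1
      have hn0 : n' ≠ 0 := by
        rintro rfl
        exact hn (by simpa using hn')
      have hlt : n' < n := by
        have h2 := hpr.two_le
        have h3 : 0 < n' := Nat.pos_of_ne_zero hn0
        calc n' < 2 * n' := by omega
          _ ≤ n.minFac * n' := Nat.mul_le_mul_right _ h2
          _ = n := hn'.symm
      obtain ⟨m, k, hmk⟩ := ih n' hlt hn0 (fun r hr hrn => h r hr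
        (hn' ▸ Dvd.dvd.mul_left hrn _))
      rcases h _ hpr (Nat.minFac_dvd n) with h2 | h2
      · refine ⟨m + 1, k, ?_⟩
        calc n = n.minFac * n' := hn'
          _ = p * (p ^ m * q ^ k) := by rw [h2, ← hmk]
          _ = p ^ (m + 1) * q ^ k := by ring
      · refine ⟨m, k + 1, ?_⟩
        calc n = n.minFac * n' := hn'
          _ = q * (p ^ m * q ^ k) := by rw [h2, ← hmk]
          _ = p ^ m * q ^ (k + 1) := by ring

/-- In a locally finite group without elements of prime order outside `{p, q}` the orders of the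
elements are `p ^ m * q ^ n`. -/
lemma exists_prime_order {p q : ℕ} (hS : LocFin S)
    (h : ¬ ∀ g : S, ∃ m n : ℕ, g ^ (p ^ m * q ^ n) = 1) :
    ∃ (r : ℕ) (x : S), r.Prime ∧ r ≠ p ∧ r ≠ q ∧ orderOf x = r := by
  push Not at h
  obtain ⟨g, hg⟩ := h
  have hfin : IsOfFinOrder g := by
    have h1 := hS {g}
    rw [Finset.coe_singleton, ← Subgroup.zpowers_eq_closure] at h1
    exact finite_zpowers.1 h1
  have h0 : orderOf g ≠ 0 := (orderOf_pos_iff.2 hfin).ne'
  by_contra hcon
  push Not at hcon
  obtain ⟨m, k, hmk⟩ := nat_form (p := p) (q := q) (orderOf g) h0 (by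
    intro r hr hrn
    by_contra h2
    push Not at h2
    have h3 : orderOf (g ^ (orderOf g / r)) = r := by
      have h4 := orderOf_pow_orderOf_div (x := g) h0 hrn
      exact h4
    exact hcon r _ hr h2.1 h2.2 h3)
  exact hg m k (by rw [← hmk]; exact pow_orderOf_eq_one g)

end

end Pool.Agent.H660P
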