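import Mathlib
import Pool.Agent.H660P.Solv

set_option autoImplicit false

/-!
The smallest factorized subgroup containing an element, and its simple quotient.
-/

namespace Pool.Agent.H660P

universe u

variable {G : Type u} [Group G]

/-- One step of the closure under the group operations and two maps. -/
def stepSet (α β : G → G) (S : Set G) : Set G :=
  S ∪ (Set.image2 (fun x y => x * y) S S ∪ ((fun x => x⁻¹) '' S ∪ (α '' S ∪ β '' S)))

def iterSet (α β : G → G) (x : G) : ℕ → Set G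
  | 0 => {1, x}
  | n + 1 => stepSet α β (iterSet α β x n)

lemma iterSet_countable (α β : G → G) (x : G) (n : ℕ) : (iterSet α β x n).Countable := by
  induction n with
  | zero => exact (Set.toFinite ({1, x} : Set G)).countable
  | succ n ih =>
    exact ih.union ((ih.image2 ih _).union ((ih.image _).union ((ih.image _).union (ih.image _))))

lemma iterSet_mono (α β : G → G) (x : G) {n m : ℕ} (h : n ≤ m) :
    iterSet α β x n ⊆ iterSet α β x m := by
  induction h with
  | refl => exact subset_rfl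
  | step _ ih => exact ih.trans Set.subset_union_left

/-- The smallest factorized subgroup containing `x` is countable. -/
lemma countable_smallest {A B : Subgroup G} (hAB : Factors A B ⊤) {x : G} {M : Subgroup G}
    (hM : ∀ K : Subgroup G, x ∈ K → Factors A B K → M ≤ K) : Countable M := by
  classical
  have h : ∀ g : G, ∃ ab : G × G, ab.1 ∈ A ∧ ab.2 ∈ B ∧ g = ab.1 * ab.2 := by
    intro g
    obtain ⟨a, ha, b, hb, hg⟩ := hAB g (Subgroup.mem_top g)
    exact ⟨(a, b), ha.1, hb.1, hg⟩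
  choose f hf using h
  set α : G → G := fun g => (f g).1
  set β : G → G := fun g => (f g).2
  set U : Set G := ⋃ n, iterSet α β x n with hU
  have hUc : U.Countable := Set.countable_iUnion fun n => iterSet_countable α β x n
  have hmem : ∀ {n : ℕ} {y : G}, y ∈ iterSet α β x n → y ∈ U := fun {n y} hy =>
    Set.mem_iUnion.2 ⟨n, hy⟩
  let K : Subgroup G :=
    { carrier := U
      mul_mem' := by
        intro a b ha hb
        obtain ⟨n, hn⟩ := Set.mem_iUnion.1 ha
        obtain ⟨m, hm⟩ := Set.mem_iUnion.1 hb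
        refine hmem (n := max n m + 1) (Or.inr (Or.inl ⟨a, iterSet_mono α β x (le_max_left _ _) hn,
          b, iterSet_mono α β x (le_max_right _ _) hm, rfl⟩))
      one_mem' := hmem (n := 0) (Or.inl rfl)
      inv_mem' := by
        intro a ha
        obtain ⟨n, hn⟩ := Set.mem_iUnion.1 ha
        exact hmem (n := n + 1) (Or.inr (Or.inr (Or.inl ⟨a, hn, rfl⟩))) }
  have hxK : x ∈ K := hmem (n := 0) (Or.inr rfl)
  have hfK : Factors A B K := by
    intro g hg
    obtain ⟨n, hn⟩ := Set.mem_iUnion.1 hg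
    refine ⟨α g, ⟨(hf g).1, hmem (n := n + 1) (Or.inr (Or.inr (Or.inr (Or.inl ⟨g, hn, rfl⟩))))⟩,
      β g, ⟨(hf g).2.1, hmem (n := n + 1) (Or.inr (Or.inr (Or.inr (Or.inr ⟨g, hn, rfl⟩))))⟩,
      (hf g).2.2⟩
  have hle := hM K hxK hfK
  have h1 : (M : Set G).Countable := hUc.mono hle
  exact h1.to_subtype

/-- **The simple section.** -/
theorem exists_section {p q : ℕ} (hp : p.Prime) (hq : q.Prime) (hpq : p ≠ q)
    {A B : Subgroup G} (hA : IsPGroup p A) (hB : IsPGroup q B)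
    (hAB : ∀ g : G, ∃ a ∈ A, ∃ b ∈ B, g = a * b) {r : ℕ} (hr : r.Prime) (hrp : r ≠ p)
    (hrq : r ≠ q) {x : G} (hx : orderOf x = r) :
    ∃ (M : Subgroup G) (hxM : x ∈ M) (N : Subgroup M) (_ : N.Normal),
      (∀ K : Subgroup G, x ∈ K → Factors A B K → M ≤ K) ∧ Factors A B M ∧ Countable M ∧
      IsSimpleGroup (M ⧸ N) ∧ Infinite (M ⧸ N) ∧
      IsPGroup p ((A.subgroupOf M).map (QuotientGroup.mk' N)) ∧
      IsPGroup q ((B.subgroupOf M).map (QuotientGroup.mk' N)) ∧
      (∀ g : M ⧸ N, ∃ a ∈ (A.subgroupOf M).map (QuotientGroup.mk' N),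
        ∃ b ∈ (B.subgroupOf M).map (QuotientGroup.mk' N), g = a * b) ∧
      orderOf ((⟨x, hxM⟩ : M) : M ⧸ N) = r ∧ (∃ g h : M ⧸ N, g * h ≠ h * g) ∧
      ∀ T : Subgroup (M ⧸ N), ((⟨x, hxM⟩ : M) : M ⧸ N) ∈ T →
        Factors ((A.subgroupOf M).map (QuotientGroup.mk' N))
          ((B.subgroupOf M).map (QuotientGroup.mk' N)) T → T = ⊤ := by
  classical
  have hAB' : Factors A B ⊤ := by
    intro g _
    obtain ⟨a, ha, b, hb, hg⟩ := hAB g
    exact ⟨a, ⟨ha, Subgroup.mem_top _⟩, b, ⟨hb, Subgroup.mem_top _⟩, hg⟩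
  obtain ⟨M, hxM, hM, hmin⟩ := exists_smallest hp hq hpq hA hB hAB' x
  have hx1 : x ≠ 1 := by
    rintro rfl
    rw [orderOf_one] at hx
    exact hr.one_lt.ne hx
  set x' : M := ⟨x, hxM⟩ with hx'
  have hx'1 : x' ≠ 1 := fun h => hx1 (congrArg Subtype.val h)
  -- a normal subgroup of `M` maximal among those not containing `x`
  obtain ⟨N, -, hN⟩ := zorn_le_nonempty₀ {N : Subgroup M | N.Normal ∧ x' ∉ N}
    (by
      intro c hc hchain y hy
      have hdir : DirectedOn (· ≤ ·) c := hchain.directedOn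
      refine ⟨sSup c, ⟨⟨?_⟩, ?_⟩, fun z hz => le_sSup hz⟩
      · intro n hn g
        obtain ⟨N1, h1, h2⟩ := (Subgroup.mem_sSup_of_directedOn ⟨y, hy⟩ hdir).1 hn
        exact (Subgroup.mem_sSup_of_directedOn ⟨y, hy⟩ hdir).2
          ⟨N1, h1, (hc h1).1.conj_mem n h2 g⟩
      · intro hn
        obtain ⟨N1, h1, h2⟩ := (Subgroup.mem_sSup_of_directedOn ⟨y, hy⟩ hdir).1 hn
        exact (hc h1).2 h2)
    ⊥ ⟨inferInstance, fun h => hx'1 (Subgroup.mem_bot.1 h)⟩
  obtain ⟨⟨hNn, hxN⟩, hmax⟩ := hN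
  have hxq : ((x' : M) : M ⧸ N) ≠ 1 := fun h => hxN ((QuotientGroup.eq_one_iff _).1 h)
  have hsimple : IsSimpleGroup (M ⧸ N) := by
    refine { exists_pair_ne := ⟨_, _, hxq⟩, eq_bot_or_eq_top_of_normal := ?_ }
    intro H hH
    have hK : (H.comap (QuotientGroup.mk' N)).Normal := hH.comap _
    by_cases hxK : x' ∈ H.comap (QuotientGroup.mk' N)
    · right
      have hfac : Factors A B ((H.comap (QuotientGroup.mk' N)).map M.subtype) := by
        refine factors_of_normal hp hq hpq hA hB hM ?_ ?_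
        · rintro _ ⟨m, _, rfl⟩
          exact m.2
        · rintro m hm _ ⟨n, hn, rfl⟩
          exact ⟨⟨m, hm⟩ * n * ⟨m, hm⟩⁻¹, hK.conj_mem n hn ⟨m, hm⟩, rfl⟩
      have hle : M ≤ (H.comap (QuotientGroup.mk' N)).map M.subtype :=
        hmin _ ⟨x', hxK, rfl⟩ hfac
      rw [eq_top_iff]
      intro g _
      obtain ⟨m, rfl⟩ := QuotientGroup.mk'_surjective N g
      obtain ⟨m', hm', he⟩ := hle m.2
      have : m' = m := Subtype.ext he
      rw [← this]
      exact hm'
    · left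
      have hNK : N ≤ H.comap (QuotientGroup.mk' N) := by
        intro n hn
        rw [Subgroup.mem_comap]
        have : (QuotientGroup.mk' N) n = 1 := (QuotientGroup.eq_one_iff n).2 hn
        rw [this]
        exact H.one_mem
      have hKN := hmax ⟨hK, hxK⟩ hNK
      rw [eq_bot_iff]
      intro g hg
      obtain ⟨m, rfl⟩ := QuotientGroup.mk'_surjective N g
      exact Subgroup.mem_bot.2 ((QuotientGroup.eq_one_iff m).2 (hKN hg))
  have hAM : IsPGroup p ((A.subgroupOf M).map (QuotientGroup.mk' N)) :=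
    (hA.comap_of_injective M.subtype M.subtype_injective).map _
  have hBM : IsPGroup q ((B.subgroupOf M).map (QuotientGroup.mk' N)) :=
    (hB.comap_of_injective M.subtype M.subtype_injective).map _
  have hABM : ∀ g : M ⧸ N, ∃ a ∈ (A.subgroupOf M).map (QuotientGroup.mk' N),
      ∃ b ∈ (B.subgroupOf M).map (QuotientGroup.mk' N), g = a * b := by
    intro g
    obtain ⟨m, rfl⟩ := QuotientGroup.mk'_surjective N g
    obtain ⟨a, ⟨haA, haM⟩, b, ⟨hbB, hbM⟩, hab⟩ := hM m.1 m.2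
    refine ⟨QuotientGroup.mk' N ⟨a, haM⟩, ⟨⟨a, haM⟩, haA, rfl⟩,
      QuotientGroup.mk' N ⟨b, hbM⟩, ⟨⟨b, hbM⟩, hbB, rfl⟩, ?_⟩
    rw [← map_mul]
    exact congrArg _ (Subtype.ext hab)
  have hord : orderOf ((x' : M) : M ⧸ N) = r := by
    have : Fact r.Prime := ⟨hr⟩
    refine orderOf_eq_prime ?_ hxq
    rw [← QuotientGroup.mk_pow]
    have : x' ^ r = 1 := by
      apply Subtype.ext
      rw [Subgroup.coe_pow, ← hx]
      exact pow_orderOf_eq_one x
    rw [this]
    rfl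
  have hinf : ¬ Finite (M ⧸ N) := not_finite_of_order hp hq hpq hAM hBM hABM hr hrp hrq hord
  refine ⟨M, hxM, N, hNn, hmin, hM, countable_smallest hAB' hmin, hsimple,
    not_finite_iff_infinite.1 hinf, hAM, hBM, hABM, hord, ?_, ?_⟩
  · by_contra hcon
    push Not at hcon
    have : IsMulCommutative (M ⧸ N) := ⟨⟨hcon⟩⟩
    have h1 : (Nat.card (M ⧸ N)).Prime := Group.is_simple_iff_prime_card.1 hsimple
    exact hinf (Nat.finite_of_card_ne_zero h1.ne_zero)
  · intro T hxT hT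
    have hfac : Factors A B ((T.comap (QuotientGroup.mk' N)).map M.subtype) := by
      rintro _ ⟨m, hm, rfl⟩
      obtain ⟨a, ⟨haA, haM⟩, b, ⟨hbB, hbM⟩, hab⟩ := hM m.1 m.2
      obtain ⟨a', ⟨haA', haT⟩, b', ⟨hbB', hbT⟩, hab'⟩ := hT _ hm
      have h0 : m = ⟨a, haM⟩ * ⟨b, hbM⟩ := Subtype.ext hab
      have h1 : QuotientGroup.mk' N ⟨a, haM⟩ * QuotientGroup.mk' N ⟨b, hbM⟩ = a' * b' := by
        rw [← map_mul, ← h0]
        exact hab'
      obtain ⟨h2, h3⟩ := uniq hp hq hpq hAM hBM ⟨⟨a, haM⟩, haA, rfl⟩ haA'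
        ⟨⟨b, hbM⟩, hbB, rfl⟩ hbB' h1
      refine ⟨a, ⟨haA, ⟨⟨a, haM⟩, ?_, rfl⟩⟩, b, ⟨hbB, ⟨⟨b, hbM⟩, ?_, rfl⟩⟩, hab⟩
      · change QuotientGroup.mk' N ⟨a, haM⟩ ∈ T
        rw [h2]
        exact haT
      · change QuotientGroup.mk' N ⟨b, hbM⟩ ∈ T
        rw [h3]
        exact hbT
    have hle : M ≤ (T.comap (QuotientGroup.mk' N)).map M.subtype := hmin _ ⟨x', hxT, rfl⟩ hfac
    rw [eq_top_iff]
    intro g _
    obtain ⟨m, rfl⟩ := QuotientGroup.mk'_surjective N g
    obtain ⟨m', hm', he⟩ := hle m.2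
    have : m' = m := Subtype.ext he
    rw [← this]
    exact hm'

end Pool.Agent.H660P
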